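import Pool.Agent.TH769.TL.Core

set_option autoImplicit false

/-!
A greedy function of a sequence of positions.
-/

namespace Pool.Agent.TH769.TL

open Pool.Agent.TH769.CD (bdd_lt)

/-- move forward along the positions `a 0, a 1, …`, cut off at `a k`, as long as the step is at
most `k` -/
def gr (k : ℕ) (a : ℕ → ℕ) : ℕ → ℕ
  | 0 => 0
  | i + 1 => if min (a i) (a k) ≤ gr k a i + k then max (gr k a i) (min (a i) (a k)) else gr k a i

theorem gr_le (k : ℕ) (a : ℕ → ℕ) (i : ℕ) : gr k a i ≤ i * k := by
  induction i with
  | zero => exact Nat.zero_le _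
  | succ i ih =>
    unfold gr
    have : (i + 1) * k = i * k + k := Nat.succ_mul i k
    split_ifs with h
    · rw [this]
      exact max_le (by omega) (by omega)
    · omega

theorem gr_congr {k : ℕ} {a b : ℕ → ℕ} (h : ∀ j < k + 1, a j = b j) {i : ℕ} (hi : i < k + 2) :
    gr k a i = gr k b i := by
  induction i with
  | zero => rfl
  | succ i ih =>
    unfold gr
    rw [ih (by omega), h i (by omega), h k (by omega)]

theorem gr_le_last (k : ℕ) (a : ℕ → ℕ) (i : ℕ) : gr k a i ≤ a k := by
  induction i with
  | zero => exact Nat.zero_le _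
  | succ i ih =>
    unfold gr
    split_ifs with h
    · exact max_le ih (min_le_right _ _)
    · exact ih

theorem gr_small {k : ℕ} {a : ℕ → ℕ} (h : a k ≤ k) : gr k a (k + 1) = a k := by
  have h1 := gr_le_last k a k
  unfold gr
  rw [min_self, if_pos (by omega)]
  omega

/-- the running maximum -/
def mx (a : ℕ → ℕ) : ℕ → ℕ
  | 0 => 0
  | i + 1 => max (mx a i) (a i)

theorem le_mx {a : ℕ → ℕ} {i j : ℕ} (h : j < i) : a j ≤ mx a i := by
  induction i with
  | zero => omega
  | succ i ih =>
    unfold mx
    rcases Nat.lt_succ_iff_lt_or_eq.1 h with h1 | h1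
    · exact (ih h1).trans (le_max_left _ _)
    · subst h1
      exact le_max_right _ _

theorem mx_lt {a : ℕ → ℕ} {i N : ℕ} (h : ∀ j < i, a j + 1 ≤ N) (hN : 1 ≤ N) : mx a i + 1 ≤ N := by
  induction i with
  | zero => simpa [mx] using hN
  | succ i ih =>
    unfold mx
    have h1 := ih fun j hj => h j (by omega)
    have h2 := h i (by omega)
    omega

theorem gr_mx {k M i : ℕ} {a : ℕ → ℕ} (h : ∀ j < i, a j ≤ M) (hk : M ≤ k) (ha : M ≤ a k) :
    gr k a i = mx a i := by
  induction i with
  | zero => rfl
  | succ i ih =>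
    have h1 := ih fun j hj => h j (by omega)
    have h2 := h i (by omega)
    unfold gr mx
    rw [h1, min_eq_left (by omega), if_pos (by omega)]

theorem gr_shift {a b : ℕ → ℕ} {j0 : ℕ} (h : ∀ j, a j = 0 ∨ a j = b j + 1)
    (h0 : ∀ j ≥ j0, a j = b j + 1) :
    ∃ k0, ∀ k ≥ k0, gr k a (k + 1) = gr k b (k + 1) + 1 := by
  have hle : ∀ j, a j ≤ b j + 1 := fun j => by
    rcases h j with h1 | h1 <;> omega
  have hsm : ∀ k, j0 ≤ k → a k ≤ k → gr k a (k + 1) = gr k b (k + 1) + 1 := by
    intro k hk h1
    have h2 := h0 k hk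
    rw [gr_small h1, gr_small (by omega), h2]
  obtain ⟨Dd, hD⟩ := bdd_lt j0 (fun j d => b j + 1 ≤ d) (fun j _ => ⟨b j + 1, fun _ h => h⟩)
  have hD' := fun j hj => hD j hj Dd le_rfl
  by_cases hc : ∃ j1 ≥ j0, Dd < a j1
  · obtain ⟨j1, hj1, hj2⟩ := hc
    obtain ⟨M, hM⟩ := bdd_lt (j1 + 1) (fun j d => b j + 1 ≤ d) (fun j _ => ⟨b j + 1, fun _ h => h⟩)
    have hM' := fun j hj => hM j hj M le_rfl
    refine ⟨max M (j1 + 1), fun k hk => ?_⟩
    by_cases hak : a k ≤ k
    · exact hsm k (by omega) hak
    · have hbk := h0 k (by omega)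
      have e1 : gr k a (j1 + 1) = mx a (j1 + 1) := gr_mx (M := M)
        (fun j hj => (hle j).trans (hM' j hj)) (by omega) (by omega)
      have e2 : gr k b (j1 + 1) = mx b (j1 + 1) := gr_mx (M := M)
        (fun j hj => by have := hM' j hj; omega) (by omega) (by omega)
      have e3 : mx a (j1 + 1) = mx b (j1 + 1) + 1 := by
        apply le_antisymm
        · have : ∀ i, mx a i ≤ mx b i + 1 := by
            intro i
            induction i with
            | zero => simp [mx]
            | succ i ih =>
              unfold mx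
              have := hle i
              omega
          exact this _
        · have h3 : a j1 ≤ mx a (j1 + 1) := le_mx (Nat.lt_succ_self j1)
          refine mx_lt (fun j hj => ?_) (by omega)
          by_cases hjj : j < j0
          · have := hD' j hjj
            omega
          · have h4 := h0 j (by omega)
            have h5 : a j ≤ mx a (j1 + 1) := le_mx hj
            omega
      have e4 : ∀ i, j1 + 1 ≤ i → gr k a i = gr k b i + 1 := by
        intro i hi
        induction i, hi using Nat.le_induction with
        | base => rw [e1, e2, e3]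
        | succ i hi ih =>
          have h5 := h0 i (by omega)
          unfold gr
          rw [ih, h5, hbk]
          split_ifs <;> omega
      exact e4 (k + 1) (by omega)
  · push Not at hc
    refine ⟨max Dd j0, fun k hk => hsm k (by omega) ?_⟩
    have := hc k (by omega)
    omega

end Pool.Agent.TH769.TL
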